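import Pool.Agent.SpeedFP.Final

/-!
Speed exponents on finitely presented groups: the exponents `1 - 2 ^ (-k)` are attained, and the set
of the attained exponents is closed under `β ↦ (1 + β) / 2`.
-/

set_option autoImplicit false

namespace Pool.Agent.Results.MP_0dfee1_pr.HalvingClosure

/-- (1) For every `k ≥ 1` the exponent `1 - 1 / 2 ^ k` is attained on a finitely presented group.
(2) If a positive exponent `β` is attained on a finitely presented group, then so is
`(1 + β) / 2`. -/
theorem result : (∀ k : ℕ, 1 ≤ k → Pool.SpeedFP.Attained (1 - 1 / 2 ^ k)) ∧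
    ∀ β : ℝ, 0 < β → Pool.SpeedFP.Attained β → Pool.SpeedFP.Attained ((1 + β) / 2) := by
  refine ⟨fun k hk => ?_, Pool.SpeedFP.attained_step⟩
  obtain ⟨j, rfl⟩ := Nat.exists_eq_add_of_le' hk
  exact Pool.SpeedFP.attained_dyadic j

end Pool.Agent.Results.MP_0dfee1_pr.HalvingClosure
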